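import Pool.Agent.Y673.PQ.Fld

/-!
# MP_90787a_nt: uniform boundedness for unicritical polynomials outside a very thin set

For all `D ≥ 1`, `d ≥ 2` and `ε > 0` there are `N`, `C` and a set `E` of complex numbers such that

* at most `C X ^ ε` elements of `E` are roots of nonzero integral polynomials of degree at most `D`
  with coefficients at most `X` in absolute value (there are about `X ^ (D + 1)` such numbers);
* if `a b ^ (d - 1)` is not in `E`, then the polynomial `a z ^ d + b` has at most `N` preperiodic
  points `z` such that `ℚ(a, b, z)` has degree at most `D`;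
* in particular `|PrePer(a z ^ d + b, K)| ≤ N` for every number field `K` of degree at most `D` and all
  `a ≠ 0`, `b` in `K` such that `a b ^ (d - 1)` is not in `E` (under some embedding).

(Every polynomial with a single finite critical point is conjugate by a translation to `a z ^ d + b`;
for `d = 2` these are all quadratic polynomials.  The number `a b ^ (d - 1)` determines the
conjugacy class over an algebraic closure if it is not zero.)

Proof.  With `c ^ (d - 1) = a b ^ (d - 1)` the points `c z / b` are preperiodic for `w ^ d + c` and of
degree at most `D (d - 1)` together with `c`.  Let `z` be preperiodic for `f = w ^ d + c`,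
`K = ℚ(c, z)`, and let `f^i(z) = f^j(z)`, `i < j`, be the first coincidence, `j > N₀`.  With a
denominator `v` of `c` all `v f^i(z)` are integers of bounded size.  There is a prime `q` of size
`X ^ η` not dividing `v` and unramified in `K` (it does not divide the norm of the different of an
integer `v ^ d c + k v z` which generates `K`), and the completion of `K` at a prime above `q` has one of
at most `D (d - 1)` types.  For each type and residue class of `(c, z)` modulo `q` the pigeonhole principle
gives an integral linear combination `F(c, z)` of the products `c ^ j (f^0(z))^(n₀) ⋯ (f^k(z))^(n_k)` with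
small coefficients which is divisible by a high power of `q` at all points of the class, over all
fields `K` of this type at once; as all iterates of `z` are bounded, it is zero for all the preperiodic
points in the class.  So these lie on a curve `F = 0` of degree bounded in terms of `d`, `D`, `ε`.  On
an irreducible component, on which no `f^i - f^j`, `i < j ≤ N₀`, vanishes, the functions `f^k` have
large degree (a growth argument at the places at infinity), and a second application of the pigeonhole
principle, to residue classes of points on the curve, shows that there are at most `C` exceptional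
points in each of `X ^ (C η)` classes.
-/

set_option autoImplicit false

open Module

namespace Pool.Agent.Results.MP_90787a_nt.FewExceptionalUnicritical

/-- `t` is a root of a nonzero integral polynomial of degree at most `D` with coefficients at most `X`
in absolute value. -/
def HeightLE (D : ℕ) (X : ℝ) (t : ℂ) : Prop :=
  ∃ P : Polynomial ℤ, P ≠ 0 ∧ P.natDegree ≤ D ∧ (∀ i, |((P.coeff i : ℤ) : ℝ)| ≤ X) ∧
    Polynomial.aeval t P = 0

/-- The elements `z` of the field `F` with a finite forward orbit under `w ↦ a w ^ d + b`. -/
def preperiodic {F : Type} [Field F] (d : ℕ) (a b : F) : Set F :=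
  {z | (Set.range fun k : ℕ => (fun w : F => a * w ^ d + b)^[k] z).Finite}

/-- The complex numbers `z` such that `a`, `b`, `z` generate a number field of degree at most `D`. -/
def boundedDegree (D : ℕ) (a b : ℂ) : Set ℂ :=
  {z | FiniteDimensional ℚ (IntermediateField.adjoin ℚ {a, b, z}) ∧
    finrank ℚ (IntermediateField.adjoin ℚ {a, b, z}) ≤ D}

/-- **Uniform boundedness outside a thin set.** -/
theorem result (d : ℕ) (hd : 2 ≤ d) (D : ℕ) (ε : ℝ) (hε : 0 < ε) :
    ∃ (N : ℕ) (C : ℝ) (E : Set ℂ),
      (∀ X : ℝ, 1 ≤ X → {t | t ∈ E ∧ HeightLE D X t}.Finite ∧
        ({t | t ∈ E ∧ HeightLE D X t}.ncard : ℝ) ≤ C * X ^ ε) ∧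
      (∀ a b : ℂ, a * b ^ (d - 1) ∉ E →
        (preperiodic d a b ∩ boundedDegree D a b).Finite ∧
        (preperiodic d a b ∩ boundedDegree D a b).ncard ≤ N) ∧
      (∀ (K : Type) [Field K] [NumberField K], finrank ℚ K ≤ D → ∀ (σ : K →+* ℂ) (a b : K),
        σ (a * b ^ (d - 1)) ∉ E →
        (preperiodic d a b).Finite ∧ (preperiodic d a b).ncard ≤ N) := by
  obtain ⟨N, C, E, h1, h2⟩ := Pool.Agent.Y673.PQ.few_set hd D ε hε
  have key : ∀ a b : ℂ, preperiodic d a b ∩ boundedDegree D a b =
      Pool.Agent.Y673.PQ.PreD d D a b := by
    intro a b
    ext z
    constructor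
    · rintro ⟨h3, h4, h5⟩
      exact ⟨h4, h5, h3⟩
    · rintro ⟨h4, h5, h3⟩
      exact ⟨h3, h4, h5⟩
  refine ⟨N, C, E, h1, fun a b hab => ?_, fun K _ _ hK σ a b hab => ?_⟩
  · rw [key]
    exact h2 a b hab
  · rw [map_mul, map_pow] at hab
    obtain ⟨h3, h4⟩ := h2 _ _ hab
    have h5 := Pool.Agent.Y673.PQ.preK_sub (d := d) hK σ a b
    have h6 : (preperiodic d a b).Finite := Set.Finite.of_finite_image (h3.subset h5) σ.injective.injOn
    refine ⟨h6, ?_⟩
    calc (preperiodic d a b).ncard = (σ '' preperiodic d a b).ncard :=
          (Set.ncard_image_of_injective _ σ.injective).symm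
      _ ≤ _ := Set.ncard_le_ncard h5 h3
      _ ≤ N := h4

end Pool.Agent.Results.MP_90787a_nt.FewExceptionalUnicritical
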