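import Mathlib
import Pool.Agent.Y706.P11

/-!
# 100% of the members of every non-isotrivial family of rational maps over a number field

For 100% of the members of a non-isotrivial family of rational maps of degree `d` over a number
field `k` the number of preperiodic points in `ℙ¹(k)` is at most `N(d)`, where `N(d)` depends on
nothing but `d`.

Proof.  The ultrapower of `k` over an ultrafilter on the parameters which contains no set of upper
density zero contains the field of rational functions in the parameters as a relatively
algebraically closed subfield (Hilbert irreducibility with densities).  Two small primes of good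
reduction, which exist for all members outside of a set of small density, bound the periods; if
there are more than `C` preperiodic points then there are more than `C` of them with tails of length
at most `C`.  So if the generic member has at most `C` preperiodic points over the field of rational
functions, the same holds for 100% of the members (this part holds for all families of endomorphisms
of projective spaces).  The number of preperiodic points of the generic member is bounded by the
geometric theorem.
-/

namespace Pool.Agent.Results.MP_90787a_nt.NonIsotrivialFamilies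

open Polynomial NumberField Filter Topology

/-- The self-map of the projective line `K ∪ {∞}`, where `none` is `∞`, given by the rational
function `p / q`, where `p` and `q` are coprime and `d` is the larger of their degrees: it sends
`x` to `p(x) / q(x)`, or to `∞` when `q(x) = 0`, and it sends `∞` to the quotient of the
coefficients of degree `d`, or to `∞` when that of `q` is zero. -/
noncomputable def mapP1 {K : Type*} [Field K] (p q : K[X]) (d : ℕ) : Option K → Option K
  | some x => by classical exact if q.eval x = 0 then none else some (p.eval x / q.eval x)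
  | none => by classical exact if q.coeff d = 0 then none else some (p.coeff d / q.coeff d)

/-- `p / q` is a rational map of degree `d` (in lowest terms) with at most `C` preperiodic points
in `K ∪ {∞}`. -/
def Good {K : Type} [Field K] (d C : ℕ) (p q : K[X]) : Prop :=
  IsCoprime p q ∧ max p.natDegree q.natDegree = d ∧
    {z : Option K | (Set.range fun n : ℕ => (mapP1 p q d)^[n] z).Finite}.encard ≤ (C : ℕ∞)

/-- `p / q` is conjugate over `K` to a map with coefficients in the subfield `F`: with
`φ(x) = (a x + b) / (c x + e)`, the map `p / q` of degree `d` satisfies `φ ∘ (p / q) = (u / w) ∘ φ`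
for some `a, b, c, e` in `K` with `a e ≠ b c` and some polynomials `u, w` of degree at most `d`, not
both zero, with coefficients in `F`; the equation is written with denominators cleared. -/
def IsotrivialOver {K : Type} [Field K] (F : Subfield K) (p q : K[X]) (d : ℕ) : Prop :=
  ∃ a b c e : K, a * e - b * c ≠ 0 ∧ ∃ u w : K[X], (u ≠ 0 ∨ w ≠ 0) ∧
    u.natDegree ≤ d ∧ w.natDegree ≤ d ∧ (∀ n, u.coeff n ∈ F) ∧ (∀ n, w.coeff n ∈ F) ∧
    (C a * p + C b * q) * ∑ i ∈ Finset.range (d + 1),
      C (w.coeff i) * (C a * X + C b) ^ i * (C c * X + C e) ^ (d - i) =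
    (C c * p + C e * q) * ∑ i ∈ Finset.range (d + 1),
      C (u.coeff i) * (C a * X + C b) ^ i * (C c * X + C e) ^ (d - i)

/-- The field `k(t_1, ..., t_m)`. -/
abbrev RF (k : Type) [Field k] (m : ℕ) : Type := FractionRing (MvPolynomial (Fin m) k)

/-- The subfield `k(t_j : j ≠ i)` of the field `k(t_1, ..., t_m)`. -/
noncomputable def others (k : Type) [Field k] {m : ℕ} (i : Fin m) : Subfield (RF k m) :=
  (IntermediateField.adjoin k {x : RF k m | ∃ j, j ≠ i ∧
    x = algebraMap (MvPolynomial (Fin m) k) (RF k m) (MvPolynomial.X j)}).toSubfield

/-- `P ∈ k[t_1, ..., t_m][x]` as a polynomial over `k(t_1, ..., t_m)`. -/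
noncomputable def generic {k : Type} [Field k] {m : ℕ} (P : (MvPolynomial (Fin m) k)[X]) :
    (RF k m)[X] :=
  P.map (algebraMap (MvPolynomial (Fin m) k) (RF k m))

/-- The specialisation of `P ∈ k[t_1, ..., t_m][x]` at `t = (v_1 / v_0, ..., v_m / v_0)`. -/
noncomputable def special {k : Type} [Field k] {m : ℕ} (v : Fin (m + 1) → 𝓞 k)
    (P : (MvPolynomial (Fin m) k)[X]) : k[X] :=
  P.map (MvPolynomial.eval fun l : Fin m =>
    algebraMap (𝓞 k) k (v l.succ) / algebraMap (𝓞 k) k (v 0))

/-- The vectors of integers of `k` whose coordinates with respect to the basis `ω` are at most `H`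
in absolute value. -/
def box {k : Type} [Field k] {J : Type} (ω : Module.Basis J ℤ (𝓞 k)) (m H : ℕ) :
    Set (Fin (m + 1) → 𝓞 k) :=
  {v | ∀ l j, |ω.repr (v l) j| ≤ (H : ℤ)}

/-- The set `S` contains 100% of the vectors in the boxes. -/
def AlmostAll {k : Type} [Field k] {J : Type} (ω : Module.Basis J ℤ (𝓞 k)) (m : ℕ)
    (S : Set (Fin (m + 1) → 𝓞 k)) : Prop :=
  Tendsto (fun H : ℕ => (({v | v ∈ box ω m H ∧ v ∈ S}.ncard : ℝ) / ((box ω m H).ncard : ℝ)))
    atTop (𝓝 1)

/-- There is a function `N` such that the following holds for every number field `k` (of any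
degree), every integral basis `ω` of `k`, every `d ≥ 2` and every `m`.  Let `P / Q` be a rational
map of degree `d` over `k(t_1, ..., t_m)`, `P, Q ∈ k[t_1, ..., t_m][x]`, which for some `i` is not
conjugate over `k(t_1, ..., t_m)` to a map with coefficients in `k(t_j : j ≠ i)` (for `m = 1`: it is
not conjugate over `k(t)` to a map with coefficients in `k`).  Then for 100% of the vectors
`(v_0, v_1, ..., v_m)` of integers of `k` (in the boxes given by the basis `ω`) `v_0 ≠ 0` and the
specialisation at `t = (v_1 / v_0, ..., v_m / v_0)` has degree `d` and at most `N(d)` preperiodic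
points in `k ∪ {∞}`. -/
theorem result : ∃ N : ℕ → ℕ, ∀ (k : Type) [Field k] [NumberField k] (J : Type) [Fintype J]
    (ω : Module.Basis J ℤ (𝓞 k)) (d : ℕ), 2 ≤ d →
    ∀ (m : ℕ) (P Q : (MvPolynomial (Fin m) k)[X]) (i : Fin m),
      max P.natDegree Q.natDegree = d → IsCoprime (generic P) (generic Q) →
      ¬ IsotrivialOver (others k i) (generic P) (generic Q) d →
      AlmostAll ω m {v | v 0 ≠ 0 ∧ Good d (N d) (special v P) (special v Q)} := by
  obtain ⟨N, hN⟩ := Pool.Agent.Y706.main3
  have e : ∀ (K : Type) [Field K] (p q : K[X]) (d : ℕ),
      Pool.Agent.W277.UH.ratP1 p q d = mapP1 p q d := by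
    intro K _ p q d
    funext z
    cases z <;> rfl
  have e2 : ∀ (K : Type) [Field K] (d C : ℕ) (p q : K[X]),
      Pool.Agent.Y706.GoodMap d C p q ↔ Good d C p q := by
    intro K _ d C p q
    unfold Pool.Agent.Y706.GoodMap Good
    rw [e]
  refine ⟨N, fun k _ _ J _ ω d hd m P Q i hmax hco hiso => ?_⟩
  have h3 := hN k J ω d hd m P Q i hmax hco hiso
  simp only [e2] at h3
  exact h3

end Pool.Agent.Results.MP_90787a_nt.NonIsotrivialFamilies
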