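import Mathlib
import Pool.Agent.Results.MP_9b502d_nt.LargeCriticalHeight
import Pool.Agent.Y31.BI.Bdg
import Pool.Agent.Y681.BI.Fam
import Pool.Agent.Y706.CH.Bdg2
import Pool.Agent.Y833.CH.Ext
import Pool.Agent.Y706.CH.Gon
import Pool.Agent.Y706.CH.Fm2

/-!
# Preperiodic points of bounded degree for 100% of the members of every family of rational maps of
large critical height, and of every non-isotrivial family of quadratic and of bicritical rational
maps, over a number field
-/

namespace Pool.Agent.Results.MP_90787a_nt.StrongFamilies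

open Polynomial NumberField Filter Topology

universe u v

/-- The self-map of the projective line `K ∪ {∞}`, where `none` is `∞`, given by the rational
function `p / q`, where `p` and `q` are coprime and `d` is the larger of their degrees: it sends
`x` to `p(x) / q(x)`, or to `∞` when `q(x) = 0`, and it sends `∞` to the quotient of the
coefficients of degree `d`, or to `∞` when that of `q` is zero. -/
noncomputable def mapP1 {K : Type*} [Field K] (p q : K[X]) (d : ℕ) : Option K → Option K
  | some x => by classical exact if q.eval x = 0 then none else some (p.eval x / q.eval x)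
  | none => by classical exact if q.coeff d = 0 then none else some (p.coeff d / q.coeff d)

/-- With `φ(x) = (a x + b) / (c x + e)`, the map `p / q` of degree `d` satisfies
`φ ∘ (p / q) = (u / w) ∘ φ` for some `a, b, c, e` in `K` with `a e ≠ b c` and some polynomials
`u, w` of degree at most `d`, not both zero, with coefficients algebraic over `F`; the equation is
written with denominators cleared. -/
def IsotrivialOver (F : Type*) {K : Type*} [Field F] [Field K] [Algebra F K] (p q : K[X])
    (d : ℕ) : Prop :=
  ∃ a b c e : K, a * e - b * c ≠ 0 ∧ ∃ u w : K[X], (u ≠ 0 ∨ w ≠ 0) ∧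
    u.natDegree ≤ d ∧ w.natDegree ≤ d ∧ (∀ n, IsAlgebraic F (u.coeff n)) ∧
    (∀ n, IsAlgebraic F (w.coeff n)) ∧
    (C a * p + C b * q) * ∑ i ∈ Finset.range (d + 1),
      C (w.coeff i) * (C a * X + C b) ^ i * (C c * X + C e) ^ (d - i) =
    (C c * p + C e * q) * ∑ i ∈ Finset.range (d + 1),
      C (u.coeff i) * (C a * X + C b) ^ i * (C c * X + C e) ^ (d - i)

/-- The map `p / q` of degree `d` is bicritical over the field `M`: for two different points
`(a₁ : a₂)` and `(b₁ : b₂)` of the projective line, `p` and `q` are linear combinations of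
`(a₂ X - a₁) ^ d` and `(b₂ X - b₁) ^ d`. -/
def Bicritical {M : Type*} [Field M] (p q : M[X]) (d : ℕ) : Prop :=
  ∃ a₁ a₂ b₁ b₂ : M, a₁ * b₂ - a₂ * b₁ ≠ 0 ∧ ∃ u₁ u₂ v₁ v₂ : M,
    p = C u₁ * (C a₂ * X - C a₁) ^ d + C v₁ * (C b₂ * X - C b₁) ^ d ∧
    q = C u₂ * (C a₂ * X - C a₁) ^ d + C v₂ * (C b₂ * X - C b₁) ^ d

/-- The height of a point of the projective line `M ∪ {∞}` over a function field `M` of one
variable over `k`: the degree of the field extension `M / k(x)` if `x` is transcendental over `k`.
It is zero for `∞` and for `x` algebraic over `k` (as `Module.finrank` is zero for an extension of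
infinite degree). -/
noncomputable def height (k : Type*) {M : Type*} [Field k] [Field M] [Algebra k M] :
    Option M → ℕ
  | some x => Module.finrank (IntermediateField.adjoin k {x}) M
  | none => 0

/-- The canonical height of the point `c` for the map `f = p / q` of degree `d`: the limes superior
(in fact the limit) of `height (f^m (c)) / d^m`. -/
noncomputable def canonicalHeight (k : Type*) {M : Type*} [Field k] [Field M] [Algebra k M]
    (p q : M[X]) (d : ℕ) (c : Option M) : ENNReal :=
  Filter.limsup (fun m : ℕ => (height k ((mapP1 p q d)^[m] c) : ENNReal) / (d : ENNReal) ^ m)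
    Filter.atTop

/-- The point `c` is a critical point of the map `p / q` of degree `d` (in characteristic zero):
a zero of `p' q - p q'`, or `∞` if `p' q - p q'` has degree less than `2 d - 2`. -/
def IsCritical {M : Type*} [Field M] (p q : M[X]) (d : ℕ) : Option M → Prop
  | some x => (derivative p * q - p * derivative q).eval x = 0
  | none => (derivative p * q - p * derivative q).coeff (2 * d - 2) = 0

/-- The height of the pair `u, w` of polynomials of degree at most `d`: the largest height of a
coefficient. -/
noncomputable def mapHeight (k : Type*) {M : Type*} [Field k] [Field M] [Algebra k M]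
    (u w : M[X]) (d : ℕ) : ℕ :=
  (Finset.range (d + 1)).sup fun i =>
    max (height k (some (u.coeff i))) (height k (some (w.coeff i)))

/-- The map `u / w` of degree `d` is the conjugate `φ ∘ (p / q) ∘ φ⁻¹` of the map `p / q` of
degree `d` by `φ(x) = (a x + b) / (c x + e)` for some `a, b, c, e` in `M` with `a e ≠ b c`; the
equation `(u / w) ∘ φ = φ ∘ (p / q)` is written with denominators cleared. -/
def Conjugate {M : Type*} [Field M] (p q u w : M[X]) (d : ℕ) : Prop :=
  ∃ a b c e : M, a * e - b * c ≠ 0 ∧ ∃ s : M, s ≠ 0 ∧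
    ∑ i ∈ Finset.range (d + 1),
      C (u.coeff i) * (C a * X + C b) ^ i * (C c * X + C e) ^ (d - i) =
        C s * (C a * p + C b * q) ∧
    ∑ i ∈ Finset.range (d + 1),
      C (w.coeff i) * (C a * X + C b) ^ i * (C c * X + C e) ^ (d - i) =
        C s * (C c * p + C e * q)

/-- The map `p / q` of degree `d` over `L` has large critical height: over some extension `M` of
`L` of degree at most `B` it is conjugate to a map `u / w` of degree `d`, with all critical points
in the projective line over `M`, which has a critical point `c` such that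
`0 < H ≤ B * ĥ(c)`, where `H` is the largest height of a coefficient of `u` or `w` and `ĥ(c)` is
the canonical height of `c` for the map `u / w` (all heights over `M`). -/
def HasLargeCriticalHeight (k : Type v) {L : Type u} [Field k] [Field L] [Algebra k L] (p q : L[X])
    (d B : ℕ) : Prop :=
  ∃ (M : Type u) (_ : Field M) (_ : Algebra k M) (_ : Algebra L M), IsScalarTower k L M ∧
    FiniteDimensional L M ∧ Module.finrank L M ≤ B ∧
    ∃ u w : M[X], IsCoprime u w ∧ max u.natDegree w.natDegree = d ∧
      Conjugate (p.map (algebraMap L M)) (q.map (algebraMap L M)) u w d ∧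
      (derivative u * w - u * derivative w).Splits ∧
      ∃ c : Option M, IsCritical u w d c ∧ 0 < mapHeight k u w d ∧
        (mapHeight k u w d : ENNReal) ≤ B * canonicalHeight k u w d c

/-- The field `k(t_1, ..., t_m)`. -/
abbrev RF (k : Type) [Field k] (m : ℕ) : Type := FractionRing (MvPolynomial (Fin m) k)

/-- The subfield `k(t_j : j ≠ i)` of the field `k(t_1, ..., t_m)`. -/
noncomputable def others (k : Type) [Field k] {m : ℕ} (i : Fin m) : Subfield (RF k m) :=
  (IntermediateField.adjoin k {x : RF k m | ∃ j, j ≠ i ∧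
    x = algebraMap (MvPolynomial (Fin m) k) (RF k m) (MvPolynomial.X j)}).toSubfield

/-- `P ∈ k[t_1, ..., t_m][x]` as a polynomial over `k(t_1, ..., t_m)`. -/
noncomputable def generic {k : Type} [Field k] {m : ℕ} (P : (MvPolynomial (Fin m) k)[X]) :
    (RF k m)[X] :=
  P.map (algebraMap (MvPolynomial (Fin m) k) (RF k m))

/-- `P ∈ k[t_1, ..., t_m][x]` as a polynomial over an algebraic closure of `k(t_1, ..., t_m)`. -/
noncomputable def genBar {k : Type} [Field k] {m : ℕ} (P : (MvPolynomial (Fin m) k)[X]) :
    (AlgebraicClosure (RF k m))[X] :=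
  (generic P).map (algebraMap (RF k m) (AlgebraicClosure (RF k m)))

/-- The specialisation of `P ∈ k[t_1, ..., t_m][x]` at `t = (v_1 / v_0, ..., v_m / v_0)`. -/
noncomputable def special {k : Type} [Field k] {m : ℕ} (v : Fin (m + 1) → 𝓞 k)
    (P : (MvPolynomial (Fin m) k)[X]) : k[X] :=
  P.map (MvPolynomial.eval fun l : Fin m =>
    algebraMap (𝓞 k) k (v l.succ) / algebraMap (𝓞 k) k (v 0))

/-- The preperiodic points of degree at most `B` over `k` of the map `p / q` of degree `d`, in the
projective line over an algebraic closure of `k`. -/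
noncomputable def preper {k : Type} [Field k] (p q : k[X]) (d B : ℕ) :
    Set (Option (AlgebraicClosure k)) :=
  {z | (Set.range fun n : ℕ => (mapP1 (p.map (algebraMap k (AlgebraicClosure k)))
      (q.map (algebraMap k (AlgebraicClosure k))) d)^[n] z).Finite ∧
    ∀ x, z = some x → (minpoly k x).natDegree ≤ B}

/-- The vectors of integers of `k` whose coordinates with respect to the basis `ω` are at most `H`
in absolute value. -/
def box {k : Type} [Field k] {J : Type} (ω : Module.Basis J ℤ (𝓞 k)) (m H : ℕ) :
    Set (Fin (m + 1) → 𝓞 k) :=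
  {v | ∀ l j, |ω.repr (v l) j| ≤ (H : ℤ)}

/-- The set `S` contains 100% of the vectors in the boxes. -/
def AlmostAll {k : Type} [Field k] {J : Type} (ω : Module.Basis J ℤ (𝓞 k)) (m : ℕ)
    (S : Set (Fin (m + 1) → 𝓞 k)) : Prop :=
  Tendsto (fun H : ℕ => (({v | v ∈ box ω m H ∧ v ∈ S}.ncard : ℝ) / ((box ω m H).ncard : ℝ)))
    atTop (𝓝 1)

lemma almostAll_mono {k : Type} [Field k] [NumberField k] {J : Type} [Fintype J]
    {ω : Module.Basis J ℤ (𝓞 k)} {m : ℕ}
    {S T : Set (Fin (m + 1) → 𝓞 k)} (h : AlmostAll ω m S) (hST : S ⊆ T) : AlmostAll ω m T := by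
  have hfin : ∀ H : ℕ, (box ω m H).Finite := by
    intro H
    have h1 : Set.InjOn (fun (v : Fin (m + 1) → 𝓞 k) (l : Fin (m + 1)) (j : J) => ω.repr (v l) j)
        (box ω m H) := by
      intro v _ w _ hvw
      funext l
      apply ω.repr.injective
      ext j
      exact congrFun (congrFun hvw l) j
    apply Set.Finite.of_finite_image _ h1
    refine Set.Finite.subset (s := Set.pi Set.univ fun _ => Set.pi Set.univ fun _ =>
      Set.Icc (-(H : ℤ)) H) (Set.Finite.pi fun _ => Set.Finite.pi fun _ => Set.finite_Icc _ _) ?_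
    rintro _ ⟨v, hv, rfl⟩
    intro l _ j _
    exact abs_le.mp (hv l j)
  refine tendsto_of_tendsto_of_tendsto_of_le_of_le h tendsto_const_nhds (fun H => ?_) fun H => ?_
  · show (({v | v ∈ box ω m H ∧ v ∈ S}.ncard : ℝ) / ((box ω m H).ncard : ℝ)) ≤
      (({v | v ∈ box ω m H ∧ v ∈ T}.ncard : ℝ) / ((box ω m H).ncard : ℝ))
    apply div_le_div_of_nonneg_right _ (Nat.cast_nonneg _)
    have : {v | v ∈ box ω m H ∧ v ∈ S} ⊆ {v | v ∈ box ω m H ∧ v ∈ T} :=
      fun v hv => ⟨hv.1, hST hv.2⟩
    exact_mod_cast Set.ncard_le_ncard this ((hfin H).subset fun v hv => hv.1)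
  · show (({v | v ∈ box ω m H ∧ v ∈ T}.ncard : ℝ) / ((box ω m H).ncard : ℝ)) ≤ 1
    apply div_le_one_of_le₀ _ (Nat.cast_nonneg _)
    exact_mod_cast Set.ncard_le_ncard (fun v (hv : v ∈ {v | v ∈ box ω m H ∧ v ∈ T}) => hv.1)
      (hfin H)

/-- There is a function `N` such that the following holds for every number field `k` (of any
degree), every integral basis `ω` of `k`, every `d ≥ 2`, `B ≥ 1`, `A` and every `m`. Let `P / Q` be
a rational map of degree `d` over `k(t_1, ..., t_m)`, `P, Q ∈ k[t_1, ..., t_m][x]`, and suppose that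
for some `i`
* `P / Q` has large critical height with the constant `A` over the function field
  `k(t_1, ..., t_m)` in the variable `t_i` with the field of constants `k(t_j : j ≠ i)`, or
* `d = 2` or `P / Q` is bicritical over an algebraic closure of `k(t_1, ..., t_m)`, and `P / Q` is
  not conjugate over this algebraic closure to a map with coefficients algebraic over
  `k(t_j : j ≠ i)`.
Then for 100% of the vectors `(v_0, v_1, ..., v_m)` of integers of `k` (in the boxes given by the
basis `ω`) `v_0 ≠ 0` and the specialisation at `t = (v_1 / v_0, ..., v_m / v_0)` has degree `d` and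
at most `N(B, d, A)` preperiodic points of degree at most `B` over `k`. -/
theorem result : ∃ N : ℕ → ℕ → ℕ → ℕ, ∀ (k : Type) [Field k] [NumberField k] (J : Type)
    [Fintype J] (ω : Module.Basis J ℤ (𝓞 k)) (d B A : ℕ), 2 ≤ d → 1 ≤ B →
    ∀ (m : ℕ) (P Q : (MvPolynomial (Fin m) k)[X]) (i : Fin m),
      max P.natDegree Q.natDegree = d → IsCoprime (generic P) (generic Q) →
      (HasLargeCriticalHeight (others k i) (generic P) (generic Q) d A ∨
        (d = 2 ∨ Bicritical (genBar P) (genBar Q) d) ∧
        ¬ IsotrivialOver (others k i) (genBar P) (genBar Q) d) →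
      AlmostAll ω m {v | v 0 ≠ 0 ∧ IsCoprime (special v P) (special v Q) ∧
        max (special v P).natDegree (special v Q).natDegree = d ∧
        (preper (special v P) (special v Q) d B).encard ≤ ((N B d A : ℕ) : ℕ∞)} := by
  have e : ∀ (K : Type) [Field K] (p q : K[X]) (d : ℕ),
      mapP1 p q d = Pool.Agent.W277.UH.ratP1 p q d := by
    intro K _ p q d
    funext z
    cases z <;> rfl
  have e5 : ∀ (K : Type) [Field K] (p q : K[X]) (d : ℕ),
      Pool.Agent.Results.MP_9b502d_nt.LargeCriticalHeight.mapP1 p q d =
        Pool.Agent.W277.UH.ratP1 p q d := by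
    intro K _ p q d
    funext z
    cases z <;> rfl
  -- the two classes of maps
  have hFIN : Pool.Agent.Y706.BI.S_FIN.{0, 0} := by
    obtain ⟨N, hN⟩ := Pool.Agent.Results.MP_9b502d_nt.LargeCriticalHeight.result.{0, 0}
    refine ⟨fun n d => N n d 0, ?_⟩
    intro k L _ _ _ _ t ht hfd n d hn hd p q hco hmax hbic hiso
    have h := hN k L t ht hfd n d 0 hn hd p q hco hmax (Or.inr ⟨hiso, by
      rcases hbic with h | ⟨A, B, U, V, h1, h2, h3⟩
      · exact Or.inl h
      · exact Or.inr ⟨A.1, A.2, B.1, B.2, h1, U.1, U.2, V.1, V.2, h2, h3⟩⟩)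
    rw [e5] at h
    exact h
  have hFIN2 : Pool.Agent.Y706.CH7.S_FIN2.{0, 0} := by
    obtain ⟨N, hN⟩ := Pool.Agent.Results.MP_9b502d_nt.LargeCriticalHeight.result.{0, 0}
    refine ⟨N, ?_⟩
    intro k L _ _ _ _ t ht hfd n d B hn hd p q hco hmax hlch
    have h := hN k L t ht hfd n d B hn hd p q hco hmax (Or.inl (by
      obtain ⟨M, i1, i2, i3, i4, i5, i6, u, w, h1, h2, h3, h4, c, h5, h6, h7⟩ := hlch
      have e6 : ∀ z : Option M,
          Pool.Agent.Results.MP_9b502d_nt.LargeCriticalHeight.height k z =
            Pool.Agent.Y706.CH7.height k z := by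
        intro z
        cases z <;> rfl
      have e7 : Pool.Agent.Results.MP_9b502d_nt.LargeCriticalHeight.mapHeight k u w d =
          Pool.Agent.Y706.CH7.mapHeight k u w d := by
        unfold Pool.Agent.Results.MP_9b502d_nt.LargeCriticalHeight.mapHeight
          Pool.Agent.Y706.CH7.mapHeight
        simp only [e6]
      have e8 : Pool.Agent.Results.MP_9b502d_nt.LargeCriticalHeight.canonicalHeight k u w d c =
          Pool.Agent.Y706.CH7.canHeight k u w d c := by
        unfold Pool.Agent.Results.MP_9b502d_nt.LargeCriticalHeight.canonicalHeight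
          Pool.Agent.Y706.CH7.canHeight
        rw [e5]
        simp only [e6]
      refine ⟨M, i1, i2, i3, i4, i5, i6, u, w, h1, h2, h3, h4, c, ?_, ?_, ?_⟩
      · cases c <;> exact h5
      · rw [e7]
        exact h6
      · rw [e7, e8]
        exact h7))
    rw [e5] at h
    exact h
  obtain ⟨N₁, hN₁⟩ := Pool.Agent.Y681.BI.t_FAM (Pool.Agent.Y31.BI.t_BDG hFIN)
  obtain ⟨N₂, hN₂⟩ := Pool.Agent.Y706.CH7.t_FM2 (Pool.Agent.Y706.CH7.bdg2 hFIN2 Pool.Agent.Y706.CH7.t_BDC
    (Pool.Agent.Y833.CH.t_EXT Pool.Agent.Y555.CH.t_HTE))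
  refine ⟨fun B d A => N₁ B d + N₂ B d A, ?_⟩
  intro k _ _ J _ ω d B A hd hB m P Q i hmax hco hcase
  have e3 : ∀ p q : k[X], preper p q d B = Pool.Agent.Y706.BI.preperB p q d B := by
    intro p q
    unfold preper Pool.Agent.Y706.BI.preperB
    rw [e]
  have hmono : ∀ (N N' : ℕ), N ≤ N' → ∀ S : Set (Fin (m + 1) → 𝓞 k), S =
      {v | v 0 ≠ 0 ∧ IsCoprime (special v P) (special v Q) ∧
        max (special v P).natDegree (special v Q).natDegree = d ∧
        (preper (special v P) (special v Q) d B).encard ≤ ((N : ℕ) : ℕ∞)} →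
      AlmostAll ω m S → AlmostAll ω m {v | v 0 ≠ 0 ∧ IsCoprime (special v P) (special v Q) ∧
        max (special v P).natDegree (special v Q).natDegree = d ∧
        (preper (special v P) (special v Q) d B).encard ≤ ((N' : ℕ) : ℕ∞)} := by
    intro N N' hNN S hS h
    apply almostAll_mono h
    intro v hv
    rw [hS] at hv
    exact ⟨hv.1, hv.2.1, hv.2.2.1, hv.2.2.2.trans (by exact_mod_cast hNN)⟩
  rcases hcase with hlch | ⟨hbic, hiso⟩
  · have h := hN₂ k J ω d B A hd hB m P Q i hmax hco (by
      obtain ⟨M, i1, i2, i3, i4, i5, i6, u, w, h1, h2, h3, h4, c, h5, h6, h7⟩ := hlch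
      have e6 : ∀ z : Option M, height (others k i) z =
            Pool.Agent.Y706.CH7.height (others k i) z := by
        intro z
        cases z <;> rfl
      have e7 : mapHeight (others k i) u w d =
          Pool.Agent.Y706.CH7.mapHeight (others k i) u w d := by
        unfold mapHeight Pool.Agent.Y706.CH7.mapHeight
        simp only [e6]
      have e8 : canonicalHeight (others k i) u w d c =
          Pool.Agent.Y706.CH7.canHeight (others k i) u w d c := by
        unfold canonicalHeight Pool.Agent.Y706.CH7.canHeight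
        rw [e]
        simp only [e6]
      refine ⟨M, i1, i2, i3, i4, i5, i6, u, w, h1, h2, h3, h4, c, ?_, ?_, ?_⟩
      · cases c <;> exact h5
      · show 0 < Pool.Agent.Y706.CH7.mapHeight (others k i) u w d
        rw [← e7]
        exact h6
      · show (Pool.Agent.Y706.CH7.mapHeight (others k i) u w d : ENNReal) ≤
          A * Pool.Agent.Y706.CH7.canHeight (others k i) u w d c
        rw [← e7, ← e8]
        exact h7)
    refine hmono (N₂ B d A) _ (Nat.le_add_left _ _) _ ?_ h
    simp only [e3]
    rfl
  · have h := hN₁ k J ω d B hd hB m P Q i hmax hco (by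
      rcases hbic with h | ⟨a₁, a₂, b₁, b₂, h1, u₁, u₂, v₁, v₂, h2, h3⟩
      · exact Or.inl h
      · exact Or.inr ⟨(a₁, a₂), (b₁, b₂), (u₁, u₂), (v₁, v₂), h1, h2, h3⟩) hiso
    refine hmono (N₁ B d) _ (Nat.le_add_right _ _) _ ?_ h
    simp only [e3]
    rfl

end Pool.Agent.Results.MP_90787a_nt.StrongFamilies
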