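import Mathlib
import Pool.Agent.Y706.B13

/-!
# Strong uniform boundedness for 100% of the members of every non-isotrivial family of polynomials

For 100% of the members of a non-isotrivial family of polynomials of degree `d` over a number field
`k`, the number of the preperiodic points of degree at most `B` over `k` is at most an explicit
number which depends on nothing but `d` and `B`.

Proof.  The transfer principle of `NonIsotrivialFamilies` is extended to points of bounded degree:
the ultrapower of `k` over an ultrafilter on the parameters which contains no set of upper density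
zero contains the field of rational functions `K` in the parameters as a relatively algebraically
closed subfield, so that the preperiodic points of degree at most `B` over the ultrapower, which are
algebraic over `K`, have degree at most `B` over `K`.  The periods of points of degree at most `B`
are bounded with two small primes of good reduction.  The geometric theorem bounds the number of
points of the generic member.  A polynomial which is isotrivial over `k(t_j : j ≠ i)` for every `i`
is isotrivial over `k` (monic centered forms and the exchange property).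
-/

namespace Pool.Agent.Results.MP_90787a_nt.StrongPolynomialFamilies

open Polynomial NumberField Filter Topology

/-- The field `k(t_1, ..., t_m)`. -/
abbrev RF (k : Type) [Field k] (m : ℕ) : Type := FractionRing (MvPolynomial (Fin m) k)

/-- `P ∈ k[t_1, ..., t_m][x]` as a polynomial over the algebraic closure of `k(t_1, ..., t_m)`. -/
noncomputable def generic {k : Type} [Field k] {m : ℕ} (P : (MvPolynomial (Fin m) k)[X]) :
    (AlgebraicClosure (RF k m))[X] :=
  (P.map (algebraMap (MvPolynomial (Fin m) k) (RF k m))).map
    (algebraMap (RF k m) (AlgebraicClosure (RF k m)))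

/-- The polynomial `f` over the extension `Ω` of `k` is isotrivial: it is conjugate over `Ω`, by a
map `y X + b`, to a polynomial with coefficients algebraic over `k`. -/
def Isotrivial (k : Type) {Ω : Type} [Field k] [Field Ω] [Algebra k Ω] (f : Polynomial Ω) : Prop :=
  ∃ y b : Ω, y ≠ 0 ∧ ∀ n, IsAlgebraic k ((C y⁻¹ * (f.comp (C y * X + C b) - C b)).coeff n)

/-- The specialisation of `P ∈ k[t_1, ..., t_m][x]` at `t = (v_1 / v_0, ..., v_m / v_0)`. -/
noncomputable def special {k : Type} [Field k] {m : ℕ} (v : Fin (m + 1) → 𝓞 k)
    (P : (MvPolynomial (Fin m) k)[X]) : k[X] :=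
  P.map (MvPolynomial.eval fun l : Fin m =>
    algebraMap (𝓞 k) k (v l.succ) / algebraMap (𝓞 k) k (v 0))

/-- The preperiodic points of `p` of degree at most `B` over `k` in an algebraic closure of `k`. -/
noncomputable def preper {k : Type} [Field k] (p : k[X]) (B : ℕ) : Set (AlgebraicClosure k) :=
  {x | (Set.range fun n : ℕ => (fun z => aeval z p)^[n] x).Finite ∧ (minpoly k x).natDegree ≤ B}

/-- The vectors of integers of `k` whose coordinates with respect to the basis `ω` are at most `H`
in absolute value. -/
def box {k : Type} [Field k] {J : Type} (ω : Module.Basis J ℤ (𝓞 k)) (m H : ℕ) :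
    Set (Fin (m + 1) → 𝓞 k) :=
  {v | ∀ l j, |ω.repr (v l) j| ≤ (H : ℤ)}

/-- The set `S` contains 100% of the vectors in the boxes. -/
def AlmostAll {k : Type} [Field k] {J : Type} (ω : Module.Basis J ℤ (𝓞 k)) (m : ℕ)
    (S : Set (Fin (m + 1) → 𝓞 k)) : Prop :=
  Tendsto (fun H : ℕ => (({v | v ∈ box ω m H ∧ v ∈ S}.ncard : ℝ) / ((box ω m H).ncard : ℝ)))
    atTop (𝓝 1)

/-- The number `M` in the bound. -/
def M (d B : ℕ) : ℕ := d ^ (24 * (1 + (8 * d + 16 * B + 15) * d ^ (32 * d ^ 2 * (d + 1))))

/-- Let `k` be a number field (of any degree) with an integral basis `ω`, and let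
`P ∈ k[t_1, ..., t_m][x]` be a polynomial of degree `d ≥ 2` in `x` which is not isotrivial. Then for
every `B ≥ 1`, for 100% of the vectors `(v_0, v_1, ..., v_m)` of integers of `k`, `v_0 ≠ 0` and the
specialisation of `P` at `t = (v_1 / v_0, ..., v_m / v_0)` has degree `d` and at most
`M(d, B) d ^ M(d, B)` preperiodic points of degree at most `B` over `k`. -/
theorem result (k : Type) [Field k] [NumberField k] (J : Type) [Fintype J]
    (ω : Module.Basis J ℤ (𝓞 k)) (d : ℕ) (hd : 2 ≤ d) (B : ℕ) (hB : 1 ≤ B) (m : ℕ)
    (P : (MvPolynomial (Fin m) k)[X]) (hP : P.natDegree = d)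
    (hiso : ¬ Isotrivial k (generic P)) :
    AlmostAll ω m {v | v 0 ≠ 0 ∧ (special v P).natDegree = d ∧
      (preper (special v P) B).encard ≤ ((M d B * d ^ M d B : ℕ) : ℕ∞)} :=
  Pool.Agent.Y706.main4 k J ω d hd B hB m P hP hiso

end Pool.Agent.Results.MP_90787a_nt.StrongPolynomialFamilies
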